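import Mathlib

open jacobiSym
open scoped NumberTheorySymbols

namespace Pool.Agent.Results.MP_1d631c_nt.Never

lemma jac_one (a : ℤ) (n : ℕ) (hn : n ≠ 0) (h : ∀ p : ℕ, p.Prime → p ∣ n → J(a | p) = 1) :
    J(a | n) = 1 := by
  induction n using induction_on_primes with
  | zero => exact absurd rfl hn
  | one => simp
  | prime_mul p m hp ih =>
    have hm : m ≠ 0 := fun h0 => hn (by simp [h0])
    rw [mul_right' a hp.ne_zero hm, h p hp (dvd_mul_right _ _),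
      ih hm fun q hq hd => h q hq (hd.mul_left _), one_mul]

lemma step (U V W W' : ℕ) (hW : W' ≠ 0) (hd : W' ∣ W) (hc : Nat.Coprime U W)
    (h : ∀ p : ℕ, p.Prime → p ∣ W → p ∣ U + V + W) : J(-1 | W') * (J(U | W') * J(V | W')) = 1 := by
  rw [← mul_left, ← mul_left]
  refine jac_one _ _ hW fun p hp hpd => ?_
  have h1 : p ∣ W := hpd.trans hd
  have h2 : p ∣ U + V := (Nat.dvd_add_left h1).1 (h p hp h1)
  have h3 : Int.gcd (U : ℤ) (p : ℤ) = 1 := by
    rw [Int.gcd_natCast_natCast]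
    exact Nat.Coprime.coprime_dvd_right h1 hc
  refine Eq.trans ?_ (sq_one' h3)
  apply mod_left'
  have h4 : (p : ℤ) ∣ (U : ℤ) + V := by exact_mod_cast h2
  apply (Int.modEq_iff_dvd.2 _ : _ ≡ _ [ZMOD p])
  have : (U : ℤ) ^ 2 - -1 * (U * V) = U * (U + V) := by ring
  rw [this]
  exact h4.mul_left _

lemma recip (a b : ℕ) (ha : a % 2 = 1) (hb : b % 2 = 1) (hc : Nat.Coprime a b) :
    J(a | b) * J(b | a) = if a % 4 = 3 ∧ b % 4 = 3 then -1 else 1 := by
  have h := sq_one (a := (b : ℤ)) (b := a) (by rw [Int.gcd_natCast_natCast]; exact hc.symm)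
  rw [← quadratic_reciprocity_if ha hb]
  split_ifs
  · linear_combination -h
  · linear_combination h

lemma core (X Y Z : ℕ) (hX : X ≠ 0) (hX2 : X % 2 = 0) (hXY : Nat.Coprime X Y) (hXZ : Nat.Coprime X Z)
    (hYZ : Nat.Coprime Y Z) (h : ∀ p : ℕ, p.Prime → p ∣ X * Y * Z → p ∣ X + Y + Z)
    (h8 : 8 ∣ X + Y + Z) : False := by
  have oY : Y % 2 = 1 := by
    by_contra hc
    have : 2 ∣ Nat.gcd X Y := Nat.dvd_gcd (by omega) (by omega)
    rw [hXY] at this; omega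
  have oZ : Z % 2 = 1 := by omega
  obtain ⟨e, W, hW, rfl⟩ := Nat.exists_eq_two_pow_mul_odd hX
  have oW : W % 2 = 1 := Nat.odd_iff.1 hW
  have dW : W ∣ 2 ^ e * W := dvd_mul_left _ _
  have E1 := step (2 ^ e * W) Y Z Z (by omega) dvd_rfl hXZ fun p hp hd => h p hp (hd.mul_left _)
  have E2 := step (2 ^ e * W) Z Y Y (by omega) dvd_rfl hXY fun p hp hd => by
    rw [add_right_comm]; exact h p hp ((hd.mul_left _).mul_right _)
  have E3 := step Y Z (2 ^ e * W) W (by omega) dW hXY.symm fun p hp hd => by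
    rw [add_comm, ← add_assoc]; exact h p hp ((hd.mul_right _).mul_right _)
  have R1 := recip Y Z oY oZ hYZ
  have R2 := recip W Z oW oZ (hXZ.coprime_dvd_left dW)
  have R3 := recip W Y oW oY (hXY.coprime_dvd_left dW)
  push_cast at E1 E2
  rw [mul_left, pow_left, at_two (Nat.odd_iff.2 oZ), at_neg_one (Nat.odd_iff.2 oZ)] at E1
  rw [mul_left, pow_left, at_two (Nat.odd_iff.2 oY), at_neg_one (Nat.odd_iff.2 oY)] at E2
  rw [at_neg_one hW] at E3
  have K : (ZMod.χ₄ Z * ZMod.χ₄ Y * ZMod.χ₄ W : ℤ) * (ZMod.χ₈ Z * ZMod.χ₈ Y) ^ e *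
      ((J(Y | Z) * J(Z | Y)) * (J(W | Z) * J(Z | W)) * (J(W | Y) * J(Y | W))) = 1 := by
    have := congrArg₂ (· * ·) (congrArg₂ (· * ·) E1 E2) E3
    simp only [one_mul] at this
    rw [← this, mul_pow]; ring
  rw [R1, R2, R3] at K
  simp only [ZMod.χ₄_nat_eq_if_mod_four, ZMod.χ₈_nat_eq_if_mod_eight, oY, oZ, oW] at K
  have he : e = 0 ∨ e = 1 ∨ e = 2 ∨ ∃ k, e = k + 3 := by
    rcases e with _ | _ | _ | k
    · simp
    · simp
    · simp
    · exact Or.inr (Or.inr (Or.inr ⟨k, rfl⟩))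
  have hY : Y % 8 = 1 ∨ Y % 8 = 3 ∨ Y % 8 = 5 ∨ Y % 8 = 7 := by omega
  have hZ : Z % 8 = 1 ∨ Z % 8 = 3 ∨ Z % 8 = 5 ∨ Z % 8 = 7 := by omega
  have hW4 : W % 4 = 1 ∨ W % 4 = 3 := by omega
  have y4 : Y % 4 = Y % 8 % 4 := by omega
  have z4 : Z % 4 = Z % 8 % 4 := by omega
  rw [y4, z4] at K
  rcases he with rfl | rfl | rfl | ⟨k, rfl⟩
  · omega
  · rcases hY with a | a | a | a <;> rcases hZ with b | b | b | b <;> rcases hW4 with c | c <;>
      first | omega | (rw [a, b, c] at K; norm_num at K)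
  · rcases hY with a | a | a | a <;> rcases hZ with b | b | b | b <;> rcases hW4 with c | c <;>
      first | omega | (rw [a, b, c] at K; norm_num at K)
  · have : 2 ^ (k + 3) * W = 8 * (2 ^ k * W) := by ring
    rw [this] at h8
    rcases hY with a | a | a | a <;> rcases hZ with b | b | b | b <;> rcases hW4 with c | c <;>
      first | omega | (rw [a, b, c] at K; norm_num at K)

lemma desc (n A : ℕ) (hn : 4 ∣ n) (D : ℕ) : ∀ X Y Z : ℕ, 0 < X → 0 < Y → 0 < Z → 0 < D →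
    X + Y + Z = n * D → A * (X * Y * Z) = D ^ 3 → False := by
  induction D using Nat.strong_induction_on with
  | _ D ih =>
  intro X Y Z hX hY hZ hD hs hp
  have pd : ∀ p : ℕ, p.Prime → p ∣ X * Y * Z → p ∣ D := fun p pp hd =>
    pp.dvd_of_dvd_pow (hp ▸ hd.mul_left A)
  have ps : ∀ p : ℕ, p.Prime → p ∣ X * Y * Z → p ∣ X + Y + Z := fun p pp hd =>
    hs ▸ (pd p pp hd).mul_left n
  have all : ∀ p : ℕ, p.Prime → p ∣ X → p ∣ Y → p ∣ Z → False := fun p pp h1 h2 h3 => by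
    obtain ⟨d, rfl⟩ := pd p pp (h3.mul_left _)
    obtain ⟨x, rfl⟩ := h1
    obtain ⟨y, rfl⟩ := h2
    obtain ⟨z, rfl⟩ := h3
    have p1 := pp.one_lt
    have d0 : 0 < d := Nat.pos_of_mul_pos_left hD
    refine ih d (by nlinarith) x y z (Nat.pos_of_mul_pos_left hX) (Nat.pos_of_mul_pos_left hY)
      (Nat.pos_of_mul_pos_left hZ) d0 ?_ ?_
    · apply Nat.eq_of_mul_eq_mul_left pp.pos
      linarith
    · apply Nat.eq_of_mul_eq_mul_left (pow_pos pp.pos 3)
      linarith [show A * (p * x * (p * y) * (p * z)) = p ^ 3 * (A * (x * y * z)) by ring,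
        show (p * d) ^ 3 = p ^ 3 * d ^ 3 by ring]
  have cXY : Nat.Coprime X Y := Nat.coprime_of_dvd fun p pp h1 h2 =>
    all p pp h1 h2 ((Nat.dvd_add_right (dvd_add h1 h2)).1 (ps p pp ((h1.mul_right _).mul_right _)))
  have cXZ : Nat.Coprime X Z := Nat.coprime_of_dvd fun p pp h1 h2 =>
    all p pp h1 ((Nat.dvd_add_right h1).1 ((Nat.dvd_add_left h2).1 (ps p pp (h2.mul_left _)))) h2
  have cYZ : Nat.Coprime Y Z := Nat.coprime_of_dvd fun p pp h1 h2 =>
    all p pp ((Nat.dvd_add_left h1).1 ((Nat.dvd_add_left h2).1 (ps p pp (h2.mul_left _)))) h1 h2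
  obtain ⟨m, rfl⟩ := hn
  have h4 : X + Y + Z = 4 * (m * D) := by rw [hs]; ring
  have h8 : 2 ∣ X * Y * Z → 8 ∣ X + Y + Z := fun h => by
    obtain ⟨d, rfl⟩ := pd 2 Nat.prime_two h
    exact ⟨m * d, by rw [hs]; ring⟩
  have : X % 2 = 0 ∨ Y % 2 = 0 ∨ Z % 2 = 0 := by omega
  rcases this with h | h | h
  · exact core X Y Z hX.ne' h cXY cXZ cYZ ps
      (h8 (((Nat.dvd_of_mod_eq_zero h).mul_right _).mul_right _))
  · refine core Y X Z hY.ne' h cXY.symm cYZ cXZ (fun p pp hd => ?_) ?_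
    · rw [add_comm Y]; exact ps p pp (by rwa [mul_comm X])
    · rw [add_comm Y]; exact h8 (((Nat.dvd_of_mod_eq_zero h).mul_left _).mul_right _)
  · refine core Z X Y hZ.ne' h cXZ.symm cYZ.symm cXY (fun p pp hd => ?_) ?_
    · rw [add_assoc, add_comm Z]; exact ps p pp (by rwa [mul_comm, ← mul_assoc])
    · rw [add_assoc, add_comm Z]; exact h8 ((Nat.dvd_of_mod_eq_zero h).mul_left _)

theorem result (n A : ℕ) (hn : 4 ∣ n) (hA : 0 < A) :
    ¬∃ x y z : ℚ, 0 < x ∧ 0 < y ∧ 0 < z ∧ (n : ℚ) = x + y + z ∧ x * y * z = 1 / A := by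
  rintro ⟨x, y, z, hx, hy, hz, hs, hp⟩
  have rep : ∀ t : ℚ, 0 < t → ∃ a b : ℕ, 0 < a ∧ 0 < b ∧ t * b = a := fun t ht => by
    have h1 : 0 < t.num := Rat.num_pos.2 ht
    refine ⟨t.num.toNat, t.den, by omega, t.den_pos, ?_⟩
    rw [Rat.mul_den_eq_num]
    exact_mod_cast (Int.toNat_of_nonneg h1.le).symm
  obtain ⟨a, b, ha, hb, e1⟩ := rep x hx
  obtain ⟨c, d, hc, hd, e2⟩ := rep y hy
  obtain ⟨f, g, hf, hg, e3⟩ := rep z hz
  have hA' : (A : ℚ) ≠ 0 := by exact_mod_cast hA.ne'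
  have hp' : A * (x * y * z) = 1 := by rw [hp]; field_simp
  refine desc n A hn (b * d * g) (a * d * g) (c * b * g) (f * b * d) (by positivity) (by positivity)
    (by positivity) (by positivity) ?_ ?_
  · have : ((a * d * g + c * b * g + f * b * d : ℕ) : ℚ) = (n * (b * d * g) : ℕ) := by
      push_cast; rw [hs, ← e1, ← e2, ← e3]; ring
    exact_mod_cast this
  · have : ((A * (a * d * g * (c * b * g) * (f * b * d)) : ℕ) : ℚ) = ((b * d * g) ^ 3 : ℕ) := by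
      push_cast; rw [← e1, ← e2, ← e3]; linear_combination (b * d * g : ℚ) ^ 3 * hp'
    exact_mod_cast this

end Pool.Agent.Results.MP_1d631c_nt.Never
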